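import Pool.Agent.Lib.MP_598ba0_lc.Main

/-!
# MP_598ba0_lc: the least cardinal without a uniform ultrafilter can be `ℵ_ω`

There is a countable transitive model `E` of ZF in which all successor cardinals are regular, every
`ℵ_n` (here `a n`) carries a uniform ultrafilter, and the singular cardinal `ℵ_ω` (here `κ`) carries
no uniform ultrafilter.  All definitions are in `Pool/Agent/Lib/MP_598ba0_lc/Defs.lean`.
-/

namespace Pool.Agent.Results.MP_598ba0_lc.AlephOmegaNotUniform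

open Pool.MP_598ba0_lc

theorem result : ∃ (E : Set ZFSet.{0}) (a : ℕ → ZFSet.{0}) (κ : ZFSet.{0}),
    E.Countable ∧ (∀ x ∈ E, ∀ y ∈ x, y ∈ E) ∧ ZFModel E ∧
    (∀ μ ν, IsSuccOf E μ ν → IsReg E ν) ∧
    a 0 = ZFSet.omega ∧ (∀ n, IsSuccOf E (a n) (a (n + 1))) ∧
    (∀ x, x ∈ κ ↔ ∃ n, x ∈ a n) ∧
    IsInfCard E κ ∧ ¬ IsReg E κ ∧
    (∀ n, ∃ D, IsUniformUltrafilter E (a n) D) ∧
    (¬ ∃ D, IsUniformUltrafilter E κ D) ∧
    (∀ ν ∈ κ, IsInfCard E ν → ∃ n, ν = a n) := main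

end Pool.Agent.Results.MP_598ba0_lc.AlephOmegaNotUniform
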